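import Mathlib

/-!
# MP_d24a2a_lc: stable models of uni-rule programs with internally delocalized odd cycles
-/

set_option autoImplicit false

namespace Pool.Agent.Results.MP_d24a2a_lc.HasStableModel

variable {A : Type*}

/-- A ground normal rule `head ← pos, not neg`. -/
structure Rule (A : Type*) where
  /-- the head -/
  head : A
  /-- the atoms in the positive literals of the body -/
  pos : Finset A
  /-- the atoms in the negative literals of the body -/
  neg : Finset A

/-- Every atom is the head of at most one rule of `P`. -/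
def UniRule (P : Set (Rule A)) : Prop := ∀ r ∈ P, ∀ r' ∈ P, r.head = r'.head → r = r'

/-- The (Herbrand) models of the reduct `P^M`. -/
def reductModels (P : Set (Rule A)) (M : Set A) : Set (Set A) :=
  {N | ∀ r ∈ P, Disjoint (r.neg : Set A) M → (r.pos : Set A) ⊆ N → r.head ∈ N}

/-- `M` is a stable model of `P`: it is the least model of the reduct `P^M`. -/
def IsStable (P : Set (Rule A)) (M : Set A) : Prop := IsLeast (reductModels P M) M

/-- The signs of the arcs. -/
inductive Sign
  | plus
  | minus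
  deriving DecidableEq

/-- The atom dependency graph, as the set of its signed arcs `(u, v, sign)`. -/
def adg (P : Set (Rule A)) : Set (A × A × Sign) :=
  {a | ∃ r ∈ P, r.head = a.2.1 ∧
    ((a.2.2 = Sign.plus ∧ a.1 ∈ r.pos) ∨ (a.2.2 = Sign.minus ∧ a.1 ∈ r.neg))}

/-- An elementary directed cycle of the signed digraph `G`; the indices are taken modulo `k + 1`. -/
structure Cycle (G : Set (A × A × Sign)) where
  /-- the length of the cycle is `k + 1` -/
  k : ℕ
  /-- the vertices -/
  vert : Fin (k + 1) → A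
  /-- the signs -/
  sign : Fin (k + 1) → Sign
  inj : Function.Injective vert
  arc_mem : ∀ i, (vert i, vert (i + 1), sign i) ∈ G

/-- `V(C)`. -/
def Cycle.verts {G : Set (A × A × Sign)} (C : Cycle G) : Set A := Set.range C.vert

/-- `E(C)`. -/
def Cycle.arcs {G : Set (A × A × Sign)} (C : Cycle G) : Set (A × A × Sign) :=
  Set.range (fun i => (C.vert i, C.vert (i + 1), C.sign i))

/-- The cycle has an odd number of negative arcs. -/
def Cycle.IsOdd {G : Set (A × A × Sign)} (C : Cycle G) : Prop :=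
  Odd (Finset.univ.filter (fun i => C.sign i = Sign.minus)).card

/-- `(u, v₁, v₂)` is a delocalizing triple of the cycle `C`. -/
def IsDelocalizing {G : Set (A × A × Sign)} (C : Cycle G) (u v₁ v₂ : A) : Prop :=
  v₁ ≠ v₂ ∧ v₁ ∈ C.verts ∧ v₂ ∈ C.verts ∧
    ((u, v₁, Sign.plus) ∈ G ∧ (u, v₁, Sign.plus) ∉ C.arcs) ∧
    ((u, v₂, Sign.minus) ∈ G ∧ (u, v₂, Sign.minus) ∉ C.arcs)

/-! ### And-nets -/

/-- The literal given by `u` and the sign is true in `M`. -/
def Sat (M : Set A) (u : A) : Sign → Prop
  | Sign.plus => u ∈ M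
  | Sign.minus => u ∉ M

/-- The value of `v` in `M` is the conjunction of the literals that are inputs of `v`. -/
def FixAt (G : Set (A × A × Sign)) (M : Set A) (v : A) : Prop :=
  v ∈ M ↔ ∀ u s, (u, v, s) ∈ G → Sat M u s

lemma sat_congr {M M' : Set A} {u : A} (h : u ∈ M ↔ u ∈ M') (s : Sign) : Sat M u s ↔ Sat M' u s := by
  cases s
  · exact h
  · exact not_congr h

open Classical in
/-- The sign of an arc that is consistent with `M`. -/
noncomputable def sg (M : Set A) (a b : A) : Sign := if (a ∈ M ↔ b ∈ M) then Sign.plus else Sign.minus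

open Classical in
/-- The sign of an input that is true. -/
noncomputable def cs (M : Set A) (a : A) : Sign := if a ∈ M then Sign.plus else Sign.minus

lemma sg_eq {M : Set A} {a b : A} {s : Sign} (h : ¬ Sat M a s) (hb : b ∉ M) : sg M a b = s := by
  cases s
  · have : a ∉ M := h
    simp [sg, this, hb]
  · have : a ∈ M := not_not.1 h
    simp [sg, this, hb]

lemma cs_eq {M : Set A} {a : A} {s : Sign} (h : Sat M a s) : cs M a = s := by
  cases s
  · have : a ∈ M := h
    simp [cs, this]
  · have : a ∉ M := h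
    simp [cs, this]

/-- A path from `v` along which the rank increases and the signs are consistent with `M`, and that is
closed by a true input of `v`. -/
structure IsPath (G : Set (A × A × Sign)) (M W : Set A) (r : A → ℕ) (v : A) (k : ℕ) (p : ℕ → A) :
    Prop where
  zero : p 0 = v
  mem : ∀ i ≤ k, p i ∈ W
  rank : ∀ i < k, r (p i) < r (p (i + 1))
  arc : ∀ i < k, (p i, p (i + 1), sg M (p i) (p (i + 1))) ∈ G
  close : (p k, v, cs M (p k)) ∈ G

lemma IsPath.rank_lt {G : Set (A × A × Sign)} {M W : Set A} {r : A → ℕ} {v : A} {k : ℕ} {p : ℕ → A}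
    (h : IsPath G M W r v k p) {i j : ℕ} (hij : i < j) (hj : j ≤ k) : r (p i) < r (p j) := by
  induction j with
  | zero => omega
  | succ j ih =>
    have h1 := h.rank j (by omega)
    rcases Nat.lt_succ_iff_lt_or_eq.1 hij with h2 | h2
    · exact (ih h2 (by omega)).trans h1
    · rw [h2]; exact h1

lemma IsPath.inj {G : Set (A × A × Sign)} {M W : Set A} {r : A → ℕ} {v : A} {k : ℕ} {p : ℕ → A}
    (h : IsPath G M W r v k p) {i j : ℕ} (hi : i ≤ k) (hj : j ≤ k) (he : p i = p j) : i = j := by
  rcases lt_trichotomy i j with h1 | h1 | h1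
  · have := h.rank_lt h1 hj
    rw [he] at this
    omega
  · exact h1
  · have := h.rank_lt h1 hi
    rw [he] at this
    omega

/-- The cycle given by a path. -/
noncomputable def IsPath.cycle {G : Set (A × A × Sign)} {M W : Set A} {r : A → ℕ} {v : A} {k : ℕ}
    {p : ℕ → A} (h : IsPath G M W r v k p) : Cycle G where
  k := k
  vert := fun i => p i
  sign := fun i => if (i : ℕ) < k then sg M (p i) (p (i + 1)) else cs M (p k)
  inj := by
    intro i j he
    exact Fin.ext (h.inj (Nat.lt_succ_iff.1 i.2) (Nat.lt_succ_iff.1 j.2) he)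
  arc_mem := by
    intro i
    by_cases hi : (i : ℕ) < k
    · have e : ((i + 1 : Fin (k + 1)) : ℕ) = i + 1 := by
        rw [Fin.val_add_one_of_lt]
        rw [Fin.lt_def]
        simpa using hi
      simp only [hi, if_true, e]
      exact h.arc i hi
    · have e : (i : ℕ) = k := by
        have := i.2
        omega
      have e' : i = Fin.last k := Fin.ext (by simpa using e)
      subst e'
      simp only [Fin.val_last, lt_irrefl, if_false, Fin.last_add_one, Fin.val_zero]
      rw [h.zero]
      exact h.close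

lemma parity {M : Set A} (p : ℕ → A) (h0 : p 0 ∉ M) (k : ℕ) :
    Odd (∑ i : Fin k, if sg M (p i) (p (i + 1)) = Sign.minus then 1 else 0) ↔ p k ∈ M := by
  induction k with
  | zero => simpa using h0
  | succ k ih =>
    rw [Fin.sum_univ_castSucc]
    simp only [Fin.val_castSucc, Fin.val_last]
    by_cases h1 : p k ∈ M <;> by_cases h2 : p (k + 1) ∈ M
    · have e : ¬ (sg M (p k) (p (k + 1)) = Sign.minus) := by simp [sg, h1, h2]
      rw [if_neg e, add_zero]
      exact ⟨fun _ => h2, fun _ => ih.2 h1⟩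
    · have e : sg M (p k) (p (k + 1)) = Sign.minus := by simp [sg, h1, h2]
      rw [if_pos e]
      have h3 := ih.2 h1
      constructor
      · intro h4
        exact absurd h3 (by
          rw [Nat.not_odd_iff_even]
          rw [Nat.odd_add_one, Nat.not_odd_iff_even] at h4
          exact h4)
      · intro h4
        exact absurd h4 h2
    · have e : sg M (p k) (p (k + 1)) = Sign.minus := by simp [sg, h1, h2]
      rw [if_pos e]
      have h3 : ¬ Odd _ := fun h => h1 (ih.1 h)
      exact ⟨fun _ => h2, fun _ => Nat.odd_add_one.2 h3⟩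
    · have e : ¬ (sg M (p k) (p (k + 1)) = Sign.minus) := by simp [sg, h1, h2]
      rw [if_neg e, add_zero]
      exact ⟨fun h => absurd (ih.1 h) h1, fun h => absurd h h2⟩

lemma IsPath.odd {G : Set (A × A × Sign)} {M W : Set A} {r : A → ℕ} {v : A} {k : ℕ} {p : ℕ → A}
    (h : IsPath G M W r v k p) (hv : v ∉ M) : h.cycle.IsOdd := by
  unfold Cycle.IsOdd
  rw [Finset.card_filter]
  change Odd (∑ i : Fin (k + 1), if (if (i : ℕ) < k then sg M (p i) (p (i + 1)) else cs M (p k)) =
    Sign.minus then 1 else 0)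
  rw [Fin.sum_univ_castSucc]
  simp only [Fin.val_castSucc, Fin.is_lt, if_true, Fin.val_last, lt_irrefl, if_false]
  have hp := parity (M := M) p (by rw [h.zero]; exact hv) k
  by_cases hk : p k ∈ M
  · have e : ¬ (cs M (p k) = Sign.minus) := by simp [cs, hk]
    rw [if_neg e, add_zero]
    exact hp.2 hk
  · have e : cs M (p k) = Sign.minus := by simp [cs, hk]
    rw [if_pos e]
    exact Nat.odd_add_one.2 (fun h => hk (hp.1 h))

/-- A path can be shortened if its cycle has an internal delocalizing triple. -/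
lemma IsPath.shorten {G : Set (A × A × Sign)} {M W : Set A} {r : A → ℕ} {v : A} {k : ℕ} {p : ℕ → A}
    (h : IsPath G M W r v k p) (hsat : ∀ u s, (u, v, s) ∈ G → Sat M u s)
    (hfix : ∀ w ∈ W, w ≠ v → FixAt G M w)
    (hr : ∀ w ∈ W, w ≠ v → w ∉ M → ∀ u s, (u, w, s) ∈ G → ¬ Sat M u s → r u < r w)
    {i b : ℕ} (hi : i ≤ k) (hb : b ≤ k) {s : Sign} (harc : (p i, p b, s) ∈ G)
    (hns : ¬ Sat M (p i) s) (hC : (p i, p b, s) ∉ h.cycle.arcs) :
    ∃ k' < k, ∃ p', IsPath G M W r v k' p' := by
  have hbv : p b ≠ v := by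
    intro he
    rw [he] at harc
    exact hns (hsat _ _ harc)
  have hbW := h.mem b hb
  have hbM : p b ∉ M := by
    intro hM
    exact hns ((hfix _ hbW hbv).1 hM _ _ harc)
  have hrk := hr _ hbW hbv hbM _ _ harc hns
  have hib : i < b := by
    by_contra hcon
    push Not at hcon
    rcases Nat.lt_or_eq_of_le hcon with h1 | h1
    · have := h.rank_lt h1 hi
      omega
    · rw [h1] at hrk
      exact lt_irrefl _ hrk
  have hsg : sg M (p i) (p b) = s := sg_eq hns hbM
  have hne : b ≠ i + 1 := by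
    intro he
    apply hC
    have hik : i < k := by omega
    refine ⟨(⟨i, by omega⟩ : Fin (k + 1)), ?_⟩
    have e : (((⟨i, by omega⟩ : Fin (k + 1)) + 1 : Fin (k + 1)) : ℕ) = i + 1 := by
      rw [Fin.val_add_one_of_lt]
      rw [Fin.lt_def]
      simpa using hik
    change (p i, p (((⟨i, by omega⟩ : Fin (k + 1)) + 1 : Fin (k + 1)) : ℕ),
      if i < k then sg M (p i) (p (i + 1)) else cs M (p k)) = (p i, p b, s)
    rw [e, if_pos hik, he, ← hsg, he]
  obtain ⟨d, hd⟩ : ∃ d, b = i + 1 + d := ⟨b - (i + 1), by omega⟩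
  have hd0 : 0 < d := by omega
  refine ⟨k - d, by omega, fun j => if j ≤ i then p j else p (j + d), ?_⟩
  refine ⟨?_, ?_, ?_, ?_, ?_⟩
  · simp [h.zero]
  · intro j hj
    split_ifs with h1
    · exact h.mem j (by omega)
    · exact h.mem (j + d) (by omega)
  · intro j hj
    rcases lt_trichotomy j i with h1 | h1 | h1
    · rw [if_pos (by omega), if_pos (by omega)]
      exact h.rank j (by omega)
    · subst h1
      rw [if_pos (le_refl _), if_neg (by omega), ← hd]
      exact hrk
    · rw [if_neg (by omega), if_neg (by omega)]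
      have := h.rank (j + d) (by omega)
      rwa [show j + d + 1 = j + 1 + d by omega] at this
  · intro j hj
    rcases lt_trichotomy j i with h1 | h1 | h1
    · rw [if_pos (by omega), if_pos (by omega)]
      exact h.arc j (by omega)
    · subst h1
      rw [if_pos (le_refl _), if_neg (by omega), ← hd, hsg]
      exact harc
    · rw [if_neg (by omega), if_neg (by omega)]
      have := h.arc (j + d) (by omega)
      rwa [show j + d + 1 = j + 1 + d by omega] at this
  · rw [if_neg (by omega), show k - d + d = k by omega]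
    exact h.close

/-- The first `n` steps of the dependence on `v`. -/
def Dep (G : Set (A × A × Sign)) (M W : Set A) (v : A) : ℕ → A → Prop
  | 0, w => w = v
  | n + 1, w => Dep G M W v n w ∨ (w ∈ W ∧ w ≠ v ∧ w ∈ M ∧ ∃ u s, (u, w, s) ∈ G ∧ Dep G M W v n u) ∨
      (w ∈ W ∧ w ≠ v ∧ w ∉ M ∧ ∀ u s, (u, w, s) ∈ G → ¬ Sat M u s → Dep G M W v n u)

lemma Dep.mono {G : Set (A × A × Sign)} {M W : Set A} {v : A} {n m : ℕ} (h : n ≤ m) {w : A}
    (hw : Dep G M W v n w) : Dep G M W v m w := by
  induction h with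
  | refl => exact hw
  | step _ ih => exact Or.inl ih

lemma Dep.mem {G : Set (A × A × Sign)} {M W : Set A} {v : A} (hv : v ∈ W) {n : ℕ} {w : A}
    (hw : Dep G M W v n w) : w ∈ W := by
  induction n with
  | zero =>
    have : w = v := hw
    rw [this]; exact hv
  | succ n ih =>
    rcases hw with h | h | h
    · exact ih h
    · exact h.1
    · exact h.1

lemma Dep.uniform [Finite A] (G : Set (A × A × Sign)) (M W : Set A) (v : A) :
    ∃ N, ∀ u, (∃ n, Dep G M W v n u) → Dep G M W v N u := by
  classical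
  cases nonempty_fintype A
  refine ⟨Finset.univ.sup (fun u => if h : ∃ n, Dep G M W v n u then h.choose else 0), ?_⟩
  intro u hu
  refine Dep.mono ?_ hu.choose_spec
  have := Finset.le_sup (f := fun u => if h : ∃ n, Dep G M W v n u then h.choose else 0)
    (Finset.mem_univ u)
  simpa only [dif_pos hu] using this

/-- The existence of a partial fixed point of an and-net in which every odd cycle has an internal
delocalizing triple. -/
lemma exists_fix [Finite A] {G : Set (A × A × Sign)}
    (hG : ∀ C : Cycle G, C.IsOdd → ∃ u v₁ v₂, IsDelocalizing C u v₁ v₂ ∧ u ∈ C.verts) (n : ℕ) :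
    ∀ (W M₀ : Set A), W.ncard = n → ∃ M : Set A, (∀ a ∉ W, (a ∈ M ↔ a ∈ M₀)) ∧
      ∀ w ∈ W, FixAt G M w := by
  induction n using Nat.strong_induction_on with
  | _ n IH =>
  intro W M₀ hWn
  rcases W.eq_empty_or_nonempty with hW | ⟨v, hv⟩
  · exact ⟨M₀, fun _ _ => Iff.rfl, fun w hw => by rw [hW] at hw; exact absurd hw (Set.notMem_empty w)⟩
  have hlt : (W \ {v}).ncard < n := by
    rw [← hWn]
    exact Set.ncard_sdiff_singleton_lt_of_mem hv (Set.toFinite W)
  obtain ⟨M, hM0, hMfix⟩ := IH _ hlt (W \ {v}) (M₀ \ {v}) rfl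
  have hvM : v ∉ M := by
    intro h
    have := (hM0 v (fun h => h.2 rfl)).1 h
    exact this.2 rfl
  have hoff : ∀ a ∉ W, (a ∈ M ↔ a ∈ M₀) := by
    intro a ha
    rw [hM0 a (fun h => ha h.1)]
    constructor
    · exact fun h => h.1
    · exact fun h => ⟨h, fun e => ha (by rw [Set.mem_singleton_iff.1 e]; exact hv)⟩
  have hfix : ∀ w ∈ W, w ≠ v → FixAt G M w := fun w hw hwv => hMfix w ⟨hw, hwv⟩
  by_cases hsat : ∀ u s, (u, v, s) ∈ G → Sat M u s
  swap
  · refine ⟨M, hoff, fun w hw => ?_⟩
    by_cases hwv : w = v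
    · rw [hwv]
      exact ⟨fun h => absurd h hvM, fun h => absurd h hsat⟩
    · exact hfix w hw hwv
  -- the set of the vertices that do not depend on `v`
  set T : Set A := {w | w ∈ W ∧ ∀ n, ¬ Dep G M W v n w} with hT
  have hvT : v ∉ T := fun h => h.2 0 rfl
  obtain ⟨N, hN⟩ := Dep.uniform G M W v
  rcases T.eq_empty_or_nonempty with hTe | hTne
  swap
  · have hlt2 : (W \ T).ncard < n := by
      rw [← hWn]
      obtain ⟨t, ht⟩ := hTne
      exact Set.ncard_lt_ncard ⟨Set.sdiff_subset, fun h => (h ht.1).2 ht⟩ (Set.toFinite W)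
    obtain ⟨M', h1, h2⟩ := IH _ hlt2 (W \ T) M rfl
    refine ⟨M', fun a ha => ?_, fun w hw => ?_⟩
    · rw [h1 a (fun h => ha h.1)]
      exact hoff a ha
    by_cases hwT : w ∈ T
    · have hwv : w ≠ v := fun e => hvT (e ▸ hwT)
      have hag : ∀ u, (u ∈ T ∨ u ∉ W) → (u ∈ M' ↔ u ∈ M) := by
        intro u hu
        apply h1
        rintro ⟨h3, h4⟩
        rcases hu with h | h
        · exact h4 h
        · exact h h3
      have hw' : w ∈ M' ↔ w ∈ M := hag w (Or.inl hwT)
      rw [FixAt, hw']
      by_cases hwM : w ∈ M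
      · refine ⟨fun _ u s hu => ?_, fun _ => hwM⟩
        have hu' : u ∈ T ∨ u ∉ W := by
          by_contra hcon
          push Not at hcon
          obtain ⟨h3, h4⟩ := hcon
          have : ∃ n, Dep G M W v n u := by
            by_contra h5
            push Not at h5
            exact h3 ⟨h4, h5⟩
          obtain ⟨m, hm⟩ := this
          exact hwT.2 (m + 1) (Or.inr (Or.inl ⟨hw, hwv, hwM, u, s, hu, hm⟩))
        exact (sat_congr (hag u hu') s).2 ((hfix w hw hwv).1 hwM u s hu)
      · refine ⟨fun h => absurd h hwM, fun h => ?_⟩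
        exfalso
        have : ∃ u s, (u, w, s) ∈ G ∧ ¬ Sat M u s ∧ ¬ Dep G M W v N u := by
          by_contra h5
          push Not at h5
          exact hwT.2 (N + 1) (Or.inr (Or.inr ⟨hw, hwv, hwM, h5⟩))
        obtain ⟨u, s, hu, hns, hnd⟩ := this
        have hu' : u ∈ T ∨ u ∉ W := by
          by_cases h6 : u ∈ W
          · left
            exact ⟨h6, fun m hm => hnd (hN u ⟨m, hm⟩)⟩
          · exact Or.inr h6
        exact hns ((sat_congr (hag u hu') s).1 (h u s hu))
    · exact h2 w ⟨hw, hwT⟩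
  -- all vertices depend on `v`
  have hdep : ∀ w ∈ W, ∃ n, Dep G M W v n w := by
    intro w hw
    by_contra h
    push Not at h
    have : w ∈ T := ⟨hw, h⟩
    rw [hTe] at this
    exact this
  by_cases hin : ∃ w s, w ∈ W ∧ (w, v, s) ∈ G
  swap
  · push Not at hin
    obtain ⟨M', h1, h2⟩ := IH _ hlt (W \ {v}) (M₀ ∪ {v}) rfl
    have hvM' : v ∈ M' := (h1 v (fun h => h.2 rfl)).2 (Or.inr rfl)
    have hoff' : ∀ a ∉ W, (a ∈ M' ↔ a ∈ M₀) := by
      intro a ha
      rw [h1 a (fun h => ha h.1)]
      constructor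
      · rintro (h | h)
        · exact h
        · exact absurd hv (by rw [← Set.mem_singleton_iff.1 h]; exact ha)
      · exact Or.inl
    refine ⟨M', hoff', fun w hw => ?_⟩
    by_cases hwv : w = v
    · rw [hwv]
      refine ⟨fun _ u s hu => ?_, fun _ => hvM'⟩
      have huW : u ∉ W := fun h => hin u s h hu
      have : u ∈ M' ↔ u ∈ M := by rw [hoff' u huW, hoff u huW]
      exact (sat_congr this s).2 (hsat u s hu)
    · exact h2 w ⟨hw, hwv⟩
  obtain ⟨w₀, s₀, hw₀, harc₀⟩ := hin
  exfalso
  classical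
  let r : A → ℕ := fun w => if h : ∃ n, Dep G M W v n w then Nat.find h else 0
  have hr_le : ∀ {w n}, Dep G M W v n w → r w ≤ n := by
    intro w n h
    have hex : ∃ n, Dep G M W v n w := ⟨n, h⟩
    simp only [r, dif_pos hex]
    exact Nat.find_min' hex h
  have hr_spec : ∀ {w}, w ∈ W → Dep G M W v (r w) w := by
    intro w hw
    have hex := hdep w hw
    simp only [r, dif_pos hex]
    exact Nat.find_spec hex
  have hstep : ∀ w ∈ W, w ≠ v → (w ∈ M → ∃ u s, (u, w, s) ∈ G ∧ u ∈ W ∧ r u < r w) ∧
      (w ∉ M → ∀ u s, (u, w, s) ∈ G → ¬ Sat M u s → u ∈ W ∧ r u < r w) := by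
    intro w hw hwv
    have h1 := hr_spec hw
    rcases hk : r w with _ | m
    · rw [hk] at h1
      exact absurd h1 hwv
    · rw [hk] at h1
      have hnot : ¬ Dep G M W v m w := by
        intro h
        have := hr_le h
        omega
      rcases h1 with h | ⟨-, -, h3, u, s, h4, h5⟩ | ⟨-, -, h3, h4⟩
      · exact absurd h hnot
      · refine ⟨fun _ => ⟨u, s, h4, h5.mem hv, ?_⟩, fun h => absurd h3 h⟩
        have := hr_le h5
        omega
      · refine ⟨fun h => absurd h h3, fun _ u s h5 h6 => ?_⟩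
        have h7 := h4 u s h5 h6
        refine ⟨h7.mem hv, ?_⟩
        have := hr_le h7
        omega
  -- a path to every vertex
  have hpath : ∀ m, ∀ w ∈ W, r w ≤ m → ∃ (k : ℕ) (p : ℕ → A), p 0 = v ∧ p k = w ∧ (∀ i ≤ k, p i ∈ W) ∧
      (∀ i < k, r (p i) < r (p (i + 1))) ∧
      (∀ i < k, (p i, p (i + 1), sg M (p i) (p (i + 1))) ∈ G) := by
    intro m
    induction m with
    | zero =>
      intro w hw hr0
      have h1 := hr_spec hw
      rw [Nat.le_zero.1 hr0] at h1
      have h2 : w = v := h1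
      exact ⟨0, fun _ => v, rfl, h2.symm, fun _ _ => hv, fun i hi => absurd hi (Nat.not_lt_zero i),
        fun i hi => absurd hi (Nat.not_lt_zero i)⟩
    | succ m ih =>
      intro w hw hrm
      by_cases hwv : w = v
      · exact ⟨0, fun _ => v, rfl, hwv.symm, fun _ _ => hv, fun i hi => absurd hi (Nat.not_lt_zero i),
          fun i hi => absurd hi (Nat.not_lt_zero i)⟩
      obtain ⟨u, huW, hru, harc⟩ : ∃ u, u ∈ W ∧ r u < r w ∧ (u, w, sg M u w) ∈ G := by
        by_cases hwM : w ∈ M
        · obtain ⟨u, s, h1, h2, h3⟩ := (hstep w hw hwv).1 hwM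
          refine ⟨u, h2, h3, ?_⟩
          have h4 := (hfix w hw hwv).1 hwM u s h1
          have h5 : sg M u w = s := by
            cases s
            · have : u ∈ M := h4
              simp [sg, this, hwM]
            · have : u ∉ M := h4
              simp [sg, this, hwM]
          rw [h5]
          exact h1
        · have h1 : ¬ ∀ u s, (u, w, s) ∈ G → Sat M u s := fun h => hwM ((hfix w hw hwv).2 h)
          push Not at h1
          obtain ⟨u, s, h2, h3⟩ := h1
          obtain ⟨h4, h5⟩ := (hstep w hw hwv).2 hwM u s h2 h3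
          refine ⟨u, h4, h5, ?_⟩
          rw [sg_eq h3 hwM]
          exact h2
      obtain ⟨k, p, h0, h1, h2, h3, h4⟩ := ih u huW (by omega)
      refine ⟨k + 1, fun i => if i ≤ k then p i else w, ?_, ?_, ?_, ?_, ?_⟩
      · simp [h0]
      · simp
      · intro i hi
        by_cases h : i ≤ k
        · simp only [if_pos h]
          exact h2 i h
        · simp only [if_neg h]
          exact hw
      · intro i hi
        rcases Nat.lt_or_eq_of_le (Nat.lt_succ_iff.1 hi) with h | h
        · simp only [if_pos h.le, if_pos (show i + 1 ≤ k from h)]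
          exact h3 i h
        · subst h
          simp only [if_pos (le_refl i), if_neg (show ¬ i + 1 ≤ i by omega), h1]
          exact hru
      · intro i hi
        rcases Nat.lt_or_eq_of_le (Nat.lt_succ_iff.1 hi) with h | h
        · simp only [if_pos h.le, if_pos (show i + 1 ≤ k from h)]
          exact h4 i h
        · subst h
          simp only [if_pos (le_refl i), if_neg (show ¬ i + 1 ≤ i by omega), h1]
          exact harc
  have hex : ∃ k, ∃ p, IsPath G M W r v k p := by
    obtain ⟨k, p, h0, h1, h2, h3, h4⟩ := hpath (r w₀) w₀ hw₀ le_rfl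
    refine ⟨k, p, h0, h2, h3, h4, ?_⟩
    rw [h1, cs_eq (hsat w₀ s₀ harc₀)]
    exact harc₀
  obtain ⟨p, hp⟩ := Nat.find_spec hex
  have hmin : ∀ k' < Nat.find hex, ¬ ∃ p', IsPath G M W r v k' p' := fun k' hk' =>
    Nat.find_min hex hk'
  obtain ⟨u, v₁, v₂, ⟨-, ⟨i₁, hi₁⟩, ⟨i₂, hi₂⟩, ⟨ha₁, hb₁⟩, ⟨ha₂, hb₂⟩⟩, ⟨j, hj⟩⟩ :=
    hG hp.cycle (hp.odd hvM)
  have hr0 : ∀ w ∈ W, w ≠ v → w ∉ M → ∀ u s, (u, w, s) ∈ G → ¬ Sat M u s → r u < r w :=
    fun w hw hwv hwM u s h1 h2 => ((hstep w hw hwv).2 hwM u s h1 h2).2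
  have ej : p j = u := hj
  have e₁ : p i₁ = v₁ := hi₁
  have e₂ : p i₂ = v₂ := hi₂
  by_cases huM : u ∈ M
  · obtain ⟨k', hk', hk''⟩ := hp.shorten hsat hfix hr0 (i := j) (b := i₂) (s := Sign.minus)
      (Nat.lt_succ_iff.1 j.2) (Nat.lt_succ_iff.1 i₂.2) (by rw [ej, e₂]; exact ha₂)
      (by rw [ej]; exact not_not.2 huM) (by rw [ej, e₂]; exact hb₂)
    exact hmin k' hk' hk''
  · obtain ⟨k', hk', hk''⟩ := hp.shorten hsat hfix hr0 (i := j) (b := i₁) (s := Sign.plus)
      (Nat.lt_succ_iff.1 j.2) (Nat.lt_succ_iff.1 i₁.2) (by rw [ej, e₁]; exact ha₁)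
      (by rw [ej]; exact huM) (by rw [ej, e₁]; exact hb₁)
    exact hmin k' hk' hk''

/-- If `P` is a uni-rule program over a finite set of atoms and every odd cycle of its atom dependency
graph has an internal delocalizing triple, then `P` has a stable model. -/
theorem result {A : Type*} [Finite A] (P : Set (Rule A)) (hP : UniRule P)
    (h : ∀ C : Cycle (adg P), C.IsOdd → ∃ u v₁ v₂, IsDelocalizing C u v₁ v₂ ∧ u ∈ C.verts) :
    ∃ M : Set A, IsStable P M := by
  -- the atoms that are derivable when the negative literals are ignored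
  set D : Set A := ⋂₀ {N : Set A | ∀ r ∈ P, (r.pos : Set A) ⊆ N → r.head ∈ N} with hD
  have hDcl : ∀ r ∈ P, (r.pos : Set A) ⊆ D → r.head ∈ D := by
    intro r hr hpos
    rw [hD, Set.mem_sInter]
    intro N hN
    exact hN r hr (hpos.trans (Set.sInter_subset_of_mem hN))
  obtain ⟨M, h1, h2⟩ := exists_fix h _ D ∅ rfl
  have hMD : M ⊆ D := by
    intro a ha
    by_contra hcon
    exact (h1 a hcon).1 ha
  refine ⟨M, ?_, ?_⟩
  · intro r hr hdis hpos
    have hhead := hDcl r hr (hpos.trans hMD)
    refine (h2 _ hhead).2 ?_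
    rintro u s ⟨r', hr', he, hs⟩
    have hrr : r' = r := hP r' hr' r hr he
    subst hrr
    rcases hs with ⟨hs, hu⟩ | ⟨hs, hu⟩
    · have hs' : s = Sign.plus := hs
      rw [hs']
      exact hpos (Finset.mem_coe.2 hu)
    · have hs' : s = Sign.minus := hs
      rw [hs']
      exact fun hM => Set.disjoint_left.1 hdis (Finset.mem_coe.2 hu) hM
  · intro N hN
    have hDQ : D ⊆ {a | a ∈ M → a ∈ N} := by
      rw [hD]
      apply Set.sInter_subset_of_mem
      intro r hr hpos hM
      have hfix := (h2 _ (hMD hM)).1 hM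
      refine hN r hr ?_ ?_
      · rw [Set.disjoint_left]
        intro u hu huM
        exact hfix u Sign.minus ⟨r, hr, rfl, Or.inr ⟨rfl, Finset.mem_coe.1 hu⟩⟩ huM
      · intro u hu
        exact hpos hu (hfix u Sign.plus ⟨r, hr, rfl, Or.inl ⟨rfl, Finset.mem_coe.1 hu⟩⟩)
    exact fun a ha => hDQ (hMD ha) ha

end Pool.Agent.Results.MP_d24a2a_lc.HasStableModel
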